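import Pool.Agent.H67BK.Main
import Pool.Agent.H30EV.Main

/-!
# Bloch-Kato Selmer groups of the anticyclotomic twists of elliptic curves

Let `F` be an imaginary quadratic field, `E` an elliptic curve over `ℚ` and `χ` an anticyclotomic
character of finite order of the absolute Galois group `G_F` (`χ(c σ c⁻¹) = χ(σ)⁻¹`, `c` complex
conjugation). The twist `π` by `χ` of the base change to `F` of the newform of `E` satisfies
`π^∨ = π^c |.|⁻¹`, its Galois representation is `V_p E ⊗ χ`, and `L(s, π) = L(E/F, χ, s + 1)`.

The theorem is about `p = 2` and characters `χ` of 2-power order; `F` is any number field. Let `K` be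
a number field inside `ℚ̄` and `d` an integer. The pairs `(F, χ)` under `(K, d)` are those with `F ⊆ K`
and `χ` trivial on the absolute Galois group of `K(√d)`. The pair `(F, χ)` is admissible for
`E : y² = x³ + A x + B` if it is under some `(K, d)` such that

* `K` is a Galois extension of `ℚ` of 2-power degree in which `2` is unramified, `d` is squarefree;
* `x³ + A x + B` has no zero modulo the primes ramified in `K` and modulo the odd primes dividing `d`;
* the odd primes dividing `A` and `B` split completely in `K`;
* `A`, `B` are `3` modulo `4` and `d` is not `3` modulo `4`, or `A = 12` modulo `16`, `B = 24` modulo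
  `32` and `d` is odd.

For every Galois extension `K₀ ⊂ ℚ̄` of `ℚ` of 2-power degree in which `2` is unramified and every
squarefree integer `δ`, a positive proportion of all elliptic curves `E` over `ℚ`, ordered by height,
has the following properties: all `(F, χ)` under `(K₀, δ)` are admissible for `E`; and
`H ^ 1_f (F, V_2 E ⊗ χ) = 0` for ALL admissible pairs `(F, χ)` at once.

(The set of the admissible pairs is infinite; it contains pairs with `F` imaginary quadratic and `χ`
anticyclotomic of any 2-power order.)

Idea of the proof. A positive proportion of all curves has the property that for all admissible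
`(K, d)` the twist `E^d` has no points over `K`, trivial 2-Selmer group over `K` and trivial 2-primary
part of the Tate-Shafarevich group over `K` (`H30EV`). Restricted to `G_K`, `χ` is trivial or the
quadratic character of `√d`; so the components of a cocycle with values in `V_2 E ⊗ χ` are
cocycles with values in `V_2 E` or `V_2 E^d`, and the Bloch-Kato condition (over the extensions of
the completions that belong to the kernel of `χ`) implies that their images in `H¹(K_v, E^d)` are zero
(a class in `H¹(K_v, V_2 E^d)` whose restriction to a quadratic extension comes from points). So these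
classes come from `Ш(E^d/K)[2^∞] = 0` and `E^d(K) ⊗ ℚ_2 = 0`, and they are zero. The rest is the
inflation-restriction sequence.
-/

set_option autoImplicit false

open NumberField Filter

namespace Pool.Agent.Results.MP_7c08ba_nt.AnticyclotomicTwists

open Pool.Agent.H30EV (Curves Ramified FieldFor TwistFor)
open Pool.Agent.H67BK

theorem under_admissible {K₀ : IntermediateField ℚ QBar} [NumberField K₀] {q : ℤ × ℤ} {δ : ℤ}
    (hF : FieldFor K₀ q) (hd : TwistFor q δ) {F : IntermediateField ℚ QBar} {m : ℕ}
    {a : Gal F → ZMod (2 ^ (m + 1))} (h : Under K₀ F δ a) : Admissible q F a :=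
  ⟨K₀, inferInstance, δ, hF, hd, h⟩

/-- **The theorem.** -/
theorem result (K₀ : IntermediateField ℚ QBar) [NumberField K₀] [IsGalois ℚ K₀] {n : ℕ}
    (hn : Module.finrank ℚ K₀ = 2 ^ n) (h2 : ¬ Ramified K₀ 2) (δ : ℤ) (hδ : Squarefree δ) :
    ∃ c : ℝ, 0 < c ∧ ∀ᶠ X : ℕ in atTop, 0 < (Curves X).ncard ∧
      c * ((Curves X).ncard : ℝ) ≤ ({q ∈ Curves X |
        (∀ (F : IntermediateField ℚ QBar) (m : ℕ) (a : Gal F → ZMod (2 ^ (m + 1))),
          IsCharacter F m a → Under K₀ F δ a → Admissible q F a) ∧
        (∀ (F : IntermediateField ℚ QBar) (m : ℕ) (a : Gal F → ZMod (2 ^ (m + 1))),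
          IsCharacter F m a → Admissible q F a → SelmerZero q F m a)}.ncard : ℝ) := by
  obtain ⟨c, hc, h⟩ := Pool.Agent.H30EV.main K₀ hn h2 δ hδ ∅
  refine ⟨c, hc, ?_⟩
  filter_upwards [h] with X hX
  refine ⟨hX.1, hX.2.trans ?_⟩
  have hsub : {q ∈ Curves X | FieldFor K₀ q ∧ TwistFor q 1 ∧ TwistFor q δ ∧
      (∀ p ∈ (∅ : Finset ℕ), p.Prime → p ≠ 2 → Pool.Agent.H30EV.NoZero q p) ∧
        Pool.Agent.H30EV.Nice q} ⊆ {q ∈ Curves X |
        (∀ (F : IntermediateField ℚ QBar) (m : ℕ) (a : Gal F → ZMod (2 ^ (m + 1))),
          IsCharacter F m a → Under K₀ F δ a → Admissible q F a) ∧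
        (∀ (F : IntermediateField ℚ QBar) (m : ℕ) (a : Gal F → ZMod (2 ^ (m + 1))),
          IsCharacter F m a → Admissible q F a → SelmerZero q F m a)} := by
    rintro q ⟨h1, h3, h4, h5, h6, h7⟩
    exact ⟨h1, fun F m a ha hu => under_admissible h3 h5 hu,
      fun F m a ha had => selmer_zero h7 ha had⟩
  exact_mod_cast Set.ncard_le_ncard hsub
    ((Pool.Agent.H30EV.curves_fin X).subset fun q hq => hq.1)

end Pool.Agent.Results.MP_7c08ba_nt.AnticyclotomicTwists
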