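import Mathlib
import Pool.Agent.XE31.GL.V3

/-!
# Bloch–Kato Selmer groups of `2`-adic representations of all dimensions over `ℚ(√-q)`

Let `q` be a prime number that is `7` modulo `16` and `K = ℚ(√-q)`. The prime `2` splits in `K`; let
`v̄` be the place above `2` at which `s = √-q` is `1` modulo `4` (replace `s` by `-s` for the other
one), `v` the other place. Let `A` be the ring of integers of a finite extension `F` of `ℚ_2`, `𝔪` its
maximal ideal, and `V = F^n` a continuous representation of `G_K` with the stable lattice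
`T = A^n`, given by `R : G_K → GL_n(A)`, such that the image of `G_K` in `GL_n(A/𝔪)` is a `2`-group.
Let `H` be the group of the classes of `H¹(K, V)` that are trivial at `v̄` and unramified (trivial on
the inertia groups) at all the primes outside `2`, without condition at `v`. If `V` is the `2`-adic
realization of `π`, as in the problem, and its Hodge–Tate weights at `v` are positive (so the ones at
`v̄` are not) then `H = H¹_f(K, V)`.

Theorem, for ALL dimensions `n` and all weights:

* (unramified case) if `V` is unramified outside `2` then `H = 0`;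
* (inertia bound) if `V` is unramified outside `2 q` then `dim H ≤ dim V / V^{I_q}` (`I_q` the inertia
  group at `√-q`), more precisely `dim H ≤ rank (R τ - 1)` for every `τ` in `I_q` that moves `√(√-q)`;
* (Frobenius bound) if `V` is unramified outside `2 q` and `I_q` acts through its quadratic character,
  `Φ` is a Frobenius element at `√-q` that fixes `√(√-q)`, then the dimension of `H` is at most the
  dimension over `A/𝔪` of the image of `{y ∈ T : 2 y ∈ (R Φ - 1) T}` in `T / 𝔪 T`; in particular
  `H = 0` if `R Φ` is `1` modulo `2 𝔪`;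
* all this also for the twists by `√D`, `D = 1` or a squarefree product of prime numbers that are `1`
  modulo `4` and inert in `K`, with `D = 1` modulo `8`: then `V` is quadratic on the inertia groups at
  the primes `p` that divide `D`, and on the decomposition groups at these primes it is assumed to be
  congruent modulo `2 𝔪` to its quadratic character.

For `n = 1`, `V` conjugate self-dual, `R Φ = ± √-q` (in `ℤ_2`, at `v̄`), and the Frobenius bound is
`(1 - ε) / 2` for the sign `ε` (this is `SelfDualCharactersTwoAdic`, where the condition at `D` is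
deduced from the duality). The theorem does not use any duality.

Examples. Let `f` be a cuspidal eigenform of any even weight `k` and level a power of two, `V_f` its
`2`-adic representation (the residual image is a `2`-group, a theorem of Tate), `χ` the `2`-adic
realization of an anticyclotomic Hecke character of `K` of infinity type `(m, -m)`, `m ≥ k / 2`, of
conductor a power of `2`, residually trivial. Then `V = V_f (k/2) ⊗ χ` is unramified outside `2`, so
`H¹_f(K, V) = 0`; the same for all conjugate self-dual twists of `Sym^j V_f`, of tensor products, of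
representations induced from extensions of `K` of `2`-power degree unramified outside `2`, etc.,
with positive Hodge–Tate weights at one of the places above `2`.

## The proof

A cocycle `z ≠ 0` that vanishes on the decomposition group of `v̄` is scaled to a primitive cocycle
with values in `T`. The values of its reduction span an `𝔽_2`-space on which the finite `2`-group acts,
so there is an invariant functional, which makes of `z` a nonzero homomorphism `h : G_K → 𝔽_2`. The
arithmetic of the form `x² + q y²` shows that there is only one possible quadratic extension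
`K(√t) / K` cut out by `h`; it is ramified at `√-q`, and `Φ` moves `√t`. Hence the value at `τ` or at
`Φ` of every primitive `z` is not `0` modulo `𝔪`, and `z ↦ z(τ)`, `z ↦ z(Φ)` are injective; the local
condition at `√-q` bounds the images.
-/

set_option autoImplicit false

namespace Pool.Agent.Results.MP_7c08ba_nt.RepresentationsOfAllDimensions

open IsLocalRing Matrix

/-- An algebraic closure of `ℚ`. -/
abbrev QBar : Type := AlgebraicClosure ℚ

/-- The field `ℚ(s)`. It is `ℚ(√-q)` if `s² = -q`. -/
noncomputable abbrev K (s : QBar) : IntermediateField ℚ QBar := IntermediateField.adjoin ℚ {s}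

/-- The absolute Galois group of `ℚ(s)` (with its Krull topology). -/
abbrev Gal (s : QBar) : Type := QBar ≃ₐ[K s] QBar

/-- Embeddings of `ℚ̄` into the algebraic closure of `ℚ_p`. Each of them gives a place above `p` of
all subfields of `ℚ̄`. -/
abbrev Emb (p : ℕ) [Fact p.Prime] : Type := QBar →ₐ[ℚ] PadicAlgCl p

/-- The automorphism `τ` of the algebraic closure of `ℚ_p` extends `σ`. -/
def Extends {s : QBar} {p : ℕ} [Fact p.Prime] (ι : Emb p)
    (τ : PadicAlgCl p ≃ₐ[ℚ_[p]] PadicAlgCl p) (σ : Gal s) : Prop := ∀ x : QBar, τ (ι x) = ι (σ x)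

/-- The decomposition group of the place given by the embedding `ι` of `ℚ̄`. -/
def Dec {s : QBar} {p : ℕ} [Fact p.Prime] (ι : Emb p) : Set (Gal s) :=
  {σ | ∃ τ : PadicAlgCl p ≃ₐ[ℚ_[p]] PadicAlgCl p, Extends ι τ σ}

/-- Its inertia group: the automorphisms which are trivial on the residue field. -/
def Inr {s : QBar} {p : ℕ} [Fact p.Prime] (ι : Emb p) : Set (Gal s) :=
  {σ | ∃ τ : PadicAlgCl p ≃ₐ[ℚ_[p]] PadicAlgCl p, Extends ι τ σ ∧
    ∀ z : PadicAlgCl p, ‖z‖ ≤ 1 → ‖τ z - z‖ < 1}

/-- Its Frobenius elements: the automorphisms which are `z ↦ z ^ p` on the residue field. -/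
def Frobenius {s : QBar} {p : ℕ} [Fact p.Prime] (ι : Emb p) : Set (Gal s) :=
  {σ | ∃ τ : PadicAlgCl p ≃ₐ[ℚ_[p]] PadicAlgCl p, Extends ι τ σ ∧
    ∀ z : PadicAlgCl p, ‖z‖ ≤ 1 → ‖τ z - z ^ p‖ < 1}

/-- The class of the numbers `D`: `D` is squarefree, `1` modulo `8`, and its prime factors are `1`
modulo `4` and inert in `ℚ(√-q)` (for example `D = 1`). -/
structure Twisting (q D : ℕ) : Prop where
  squarefree : Squarefree D
  mod_eight : D % 8 = 1
  mod_four : ∀ l : ℕ, l.Prime → l ∣ D → l % 4 = 1
  inert : ∀ l : ℕ, l.Prime → l ∣ D → ∀ x : ℤ, ¬ (l : ℤ) ∣ x ^ 2 + q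

section representations

variable {s : QBar} {n : ℕ} {A : Type} [CommRing A] [IsDomain A] [IsLocalRing A]
  [TopologicalSpace A]

/-- The matrices are congruent modulo `2 𝔪`. -/
def Congruent (M N : Matrix (Fin n) (Fin n) A) : Prop :=
  ∀ i j, ∃ e ∈ maximalIdeal A, M i j - N i j = 2 * e

/-- The continuous representation `R` is residually a `2`-group, it is the quadratic character of
`K(ρ) / K` on the inertia groups at all the primes not above `2 q` (for `ρ² = √-q D` this means
unramified outside `2 q D`), and on the decomposition groups at the primes dividing `D` it is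
congruent to `-1` modulo `2 𝔪` at the elements that move `ρ`. No condition at the prime `q`. -/
structure Admissible (q D : ℕ) (ρ : QBar) (R : Gal s →* Matrix (Fin n) (Fin n) A) : Prop where
  cont : Continuous fun σ => R σ
  residual : ∀ σ, ∃ m : ℕ, ∀ i j, (R (σ ^ 2 ^ m) - 1) i j ∈ maximalIdeal A
  inertia : ∀ (p : ℕ) [Fact p.Prime] (ι : Emb p), p ≠ 2 → p ≠ q → ∀ σ ∈ (Inr ι : Set (Gal s)),
    (σ ρ = ρ → R σ = 1) ∧ (σ ρ = -ρ → R σ = -1)
  decomposition : ∀ (p : ℕ) [Fact p.Prime] (ι : Emb p), p ∣ D → ∀ σ ∈ (Dec ι : Set (Gal s)),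
    σ ρ = -ρ → Congruent (R σ) (-1)

variable {F : Type} [Field F] [Algebra A F]

/-- The action of `σ` on `V = F^n`. -/
noncomputable def act (F : Type) [Field F] [Algebra A F] (R : Gal s →* Matrix (Fin n) (Fin n) A)
    (σ : Gal s) (y : Fin n → F) : Fin n → F := (R σ).map (algebraMap A F) *ᵥ y

/-- `z` is a continuous cocycle with values in `V` (a nonzero multiple of it is continuous with
values in the lattice `A^n`). -/
structure Cocycle (R : Gal s →* Matrix (Fin n) (Fin n) A) (z : Gal s → Fin n → F) : Prop where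
  mul : ∀ σ τ, z (σ * τ) = z σ + act F R σ (z τ)
  cont : ∃ (a : A) (b : Gal s → Fin n → A), a ≠ 0 ∧ Continuous b ∧
    ∀ σ i, algebraMap A F a * z σ i = algebraMap A F (b σ i)

/-- `z` is a coboundary on the set `S`. -/
def Trivial (R : Gal s →* Matrix (Fin n) (Fin n) A) (S : Set (Gal s)) (z : Gal s → Fin n → F) :
    Prop := ∃ y : Fin n → F, ∀ σ ∈ S, z σ = act F R σ y - y

/-- **The Selmer group.** The class of `z` is trivial at the place above `2` given by `ι₂`, and
unramified (trivial on the inertia groups) at the odd primes. -/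
structure InSelmer (R : Gal s →* Matrix (Fin n) (Fin n) A) (ι₂ : Emb 2)
    (z : Gal s → Fin n → F) : Prop where
  cocycle : Cocycle R z
  odd : ∀ (p : ℕ) [Fact p.Prime] (ι : Emb p), p ≠ 2 → Trivial R (Inr ι) z
  two : Trivial R (Dec ι₂) z

/-- The dimension of the Selmer group is at most `d`: any `r > d` cocycles of it are linearly
dependent modulo coboundaries. -/
def SelmerDimLE (F : Type) [Field F] [Algebra A F] (R : Gal s →* Matrix (Fin n) (Fin n) A)
    (ι₂ : Emb 2) (d : ℕ) : Prop :=
  ∀ (r : ℕ) (z : Fin r → Gal s → Fin n → F), d < r → (∀ j, InSelmer R ι₂ (z j)) →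
    ∃ a : Fin r → F, a ≠ 0 ∧ Trivial R Set.univ (fun σ => ∑ j, a j • z j σ)

/-- The dimension over `A/𝔪` of the image of `{y ∈ A^n : 2 y ∈ (R Φ - 1) A^n}` in `(A/𝔪)^n`. -/
noncomputable def frobRank (R : Gal s →* Matrix (Fin n) (Fin n) A) (Φ : Gal s) : ℕ :=
  Module.finrank (ResidueField A) (Submodule.span (ResidueField A)
    {v : Fin n → ResidueField A | ∃ x y : Fin n → A, (2 : A) • y = (R Φ - 1) *ᵥ x ∧
      v = fun i => residue A (y i)})

end representations

/-! ### The proof -/

open Pool.Agent.XE31.BK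

lemma two_mem {A : Type} [CommRing A] [IsLocalRing A] [Algebra ℤ_[2] A] [Module.Free ℤ_[2] A] :
    (2 : A) ∈ maximalIdeal A ∧ (2 : A) ≠ 0 := by
  let b := Module.Free.chooseBasis ℤ_[2] A
  obtain ⟨e⟩ : Nonempty _ := b.index_nonempty
  have key : ∀ x : A, b.repr ((2 : A) * x) e = 2 * b.repr x e := by
    intro x
    have h : (2 : A) * x = (2 : ℤ_[2]) • x := by rw [Algebra.smul_def, map_ofNat]
    rw [h, map_smul, Finsupp.smul_apply, smul_eq_mul]
  constructor
  · rw [mem_maximalIdeal, mem_nonunits_iff]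
    intro hu
    obtain ⟨x, hx⟩ := hu.dvd (a := b e)
    have h1 := key x
    rw [← hx, b.repr_self, Finsupp.single_eq_same] at h1
    have h2 : IsUnit ((2 : ℕ) : ℤ_[2]) := by
      push_cast
      exact IsUnit.of_mul_eq_one _ h1.symm
    exact PadicInt.prime_p.not_unit h2
  · intro h0
    have h1 := key (b e)
    rw [h0, zero_mul, map_zero, b.repr_self, Finsupp.single_eq_same, mul_one] at h1
    exact two_ne_zero h1.symm

lemma tw_of {q D : ℕ} (h : Twisting q D) : Tw q D where
  sqf := h.squarefree
  mod := h.mod_eight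
  one := h.mod_four
  inert := by
    intro l hl hlD
    rw [legendreSym.eq_neg_one_iff]
    rintro ⟨b, hb⟩
    obtain ⟨a, rfl⟩ := ZMod.intCast_surjective b
    apply h.inert l hl.out hlD a
    rw [← ZMod.intCast_zmod_eq_zero_iff_dvd]
    push_cast at hb ⊢
    linear_combination -hb

/-- **Selmer groups of representations of all dimensions.** Let `q = 7` modulo `16` be a prime
number, `K = ℚ(√-q)`, `s = √-q`, `D` a number of the class (for example `1`), `ρ = √(s D)`, `ι₂` an
embedding of `ℚ̄` into the algebraic closure of `ℚ_2` that maps `s` to `θ ∈ ℤ_2`, `θ = 1` modulo `4`;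
let `A` be the ring of integers of a finite extension `F` of `ℚ_2` and `R : G_K → GL_n(A)` an
admissible representation. There are elements `τ` of the inertia groups at `√-q` that move `ρ` and
Frobenius elements `Φ` at `√-q` that fix `ρ`, and

1. the dimension of the Selmer group is at most the rank of `R τ - 1` over `F`;
2. if `R` is unramified at `√-q` then all the classes of the Selmer group are trivial;
3. if the inertia group of `√-q` acts through its quadratic character then the dimension of the
   Selmer group is at most `frobRank R Φ`;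
4. and if moreover `R Φ = 1` modulo `2 𝔪` then all the classes of the Selmer group are trivial. -/
theorem result : ∀ (q : ℕ) [Fact q.Prime], q % 16 = 7 → ∀ D : ℕ, Twisting q D →
    ∀ s ρ : QBar, s ^ 2 = -(q : QBar) → ρ ^ 2 = s * D →
    ∀ (ι₂ : Emb 2) (θ : ℤ_[2]), ι₂ s = algebraMap ℚ_[2] (PadicAlgCl 2) θ →
      (∃ k : ℤ_[2], θ = 1 + 4 * k) →
    ∀ (A : Type) [CommRing A] [IsDomain A] [IsDiscreteValuationRing A] [TopologicalSpace A]
      [IsTopologicalRing A] [Algebra ℤ_[2] A] [Module.Finite ℤ_[2] A] [Module.Free ℤ_[2] A],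
      IsAdic (maximalIdeal A) →
    ∀ (F : Type) [Field F] [Algebra A F] [IsFractionRing A F] (n : ℕ)
      (R : Gal s →* Matrix (Fin n) (Fin n) A), Admissible q D ρ R →
    (∀ ι : Emb q, (∃ τ ∈ (Inr ι : Set (Gal s)), τ ρ = -ρ) ∧
      ∃ Φ ∈ (Frobenius ι : Set (Gal s)), Φ ρ = ρ) ∧
    (∀ ι : Emb q, ∀ τ ∈ (Inr ι : Set (Gal s)), τ ρ = -ρ →
      SelmerDimLE F R ι₂ ((R τ).map (algebraMap A F) - 1).rank) ∧
    ((∀ ι : Emb q, ∀ τ ∈ (Inr ι : Set (Gal s)), R τ = 1) →
      ∀ z : Gal s → Fin n → F, InSelmer R ι₂ z → Trivial R Set.univ z) ∧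
    (∀ ι : Emb q, (∀ τ ∈ (Inr ι : Set (Gal s)), τ ρ = -ρ → R τ = -1) →
      ∀ Φ ∈ (Frobenius ι : Set (Gal s)), Φ ρ = ρ →
        SelmerDimLE F R ι₂ (frobRank R Φ) ∧
        (Congruent (R Φ) 1 → ∀ z : Gal s → Fin n → F, InSelmer R ι₂ z →
          Trivial R Set.univ z)) := by
  intro q _ h16 D hD s ρ hs hρ ι₂ θ hθs hk A _ _ _ _ _ _ _ _ hA F _ _ _ n R hR
  have hq2 : q ≠ 2 := by rintro rfl; omega
  obtain ⟨h2A, h20⟩ := two_mem (A := A)
  have hθ2 : θ ^ 2 = -(q : ℤ_[2]) := by
    have h1 : (ι₂ s) ^ 2 = -(q : PadicAlgCl 2) := by rw [← map_pow, hs, map_neg, map_natCast]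
    rw [hθs] at h1
    have h2 : algebraMap ℚ_[2] (PadicAlgCl 2) ((θ : ℚ_[2]) ^ 2) =
        algebraMap ℚ_[2] (PadicAlgCl 2) (-(q : ℚ_[2])) := by
      rw [map_pow, h1, map_neg, map_natCast]
    have h3 := (algebraMap ℚ_[2] (PadicAlgCl 2)).injective h2
    apply Subtype.ext
    push_cast
    exact h3
  obtain ⟨k, hk⟩ := hk
  have hθ5 := theta_five h16 hk hθ2
  have hT := tw_of hD
  have hrep : Pool.Agent.XE31.GL.RepV q D ρ R := by
    refine ⟨hR.residual, hR.inertia, fun p _ ι hp σ hσ hσρ => ?_⟩
    choose e he hee using hR.decomposition p ι hp σ hσ hσρ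
    refine ⟨e, he, fun i j => ?_⟩
    have h1 : R σ i j - (-1 : Matrix (Fin n) (Fin n) A) i j = 2 * e i j := hee i j
    rw [Matrix.neg_apply] at h1
    linear_combination h1
  have hsel : ∀ z : Gal s → Fin n → F, InSelmer R ι₂ z → Pool.Agent.XE31.GL.SelV ι₂ R z := by
    intro z hz
    refine ⟨⟨hz.cocycle.mul, ?_, hz.odd⟩, hz.two⟩
    obtain ⟨a, b, ha, hb, hab⟩ := hz.cocycle.cont
    exact ⟨a, b, ha, hb, fun σ => funext fun i => hab σ i⟩
  have hdep : ∀ {r : ℕ} {z : Fin r → Gal s → Fin n → F}, Pool.Agent.XE31.GL.Dep R z →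
      ∃ a : Fin r → F, a ≠ 0 ∧ Trivial R Set.univ (fun σ => ∑ j, a j • z j σ) := by
    rintro r z ⟨a, ha, y, hy⟩
    exact ⟨a, ha, y, fun σ _ => hy σ⟩
  -- from the bound zero to triviality
  have hzero : SelmerDimLE F R ι₂ 0 → ∀ z : Gal s → Fin n → F, InSelmer R ι₂ z →
      Trivial R Set.univ z := by
    intro h z hz
    obtain ⟨a, ha, y, hy⟩ := h 1 (fun _ => z) one_pos (fun _ => hz)
    have ha0 : a 0 ≠ 0 := by
      intro h0
      apply ha
      funext j
      rw [Subsingleton.elim j 0, h0]
      rfl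
    refine ⟨(a 0)⁻¹ • y, fun σ hσ => ?_⟩
    have h1 : ∑ j : Fin 1, a j • z σ = act F R σ y - y := hy σ hσ
    rw [Fin.sum_univ_one] at h1
    have h2 : z σ = (a 0)⁻¹ • (act F R σ y - y) := by
      rw [← h1, smul_smul, inv_mul_cancel₀ ha0, one_smul]
    rw [h2, smul_sub]
    unfold act
    rw [mulVec_smul]
  have h1 : ∀ ι : Emb q, ∀ τ ∈ (Inr ι : Set (Gal s)), τ ρ = -ρ →
      SelmerDimLE F R ι₂ ((R τ).map (algebraMap A F) - 1).rank := by
    intro ι τ hτ hτρ r z hr hz
    exact hdep (Pool.Agent.XE31.GL.bound_inertia hs h16 hT hρ hA h2A h20 hrep hR.cont hθ5 hθs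
      (fun j => hsel _ (hz j)) hτ hτρ hr)
  obtain ⟨ι₀⟩ : Nonempty (Emb q) :=
    ⟨IsAlgClosed.lift (R := ℚ) (S := QBar) (M := AlgebraicClosure ℚ_[q])⟩
  refine ⟨fun ι => ⟨move_q hs hT hρ hq2 ι, ?_⟩, h1, fun hur => hzero ?_, fun ι hι Φ hΦ hΦρ => ?_⟩
  · obtain ⟨τ, Φ, h2, h3, h4⟩ := exists_frob_fix hs hT hρ hq2 ι
    exact ⟨Φ, ⟨τ, h2, h3⟩, h4⟩
  · obtain ⟨τ, hτ, hτρ⟩ := move_q hs hT hρ hq2 ι₀
    have h2 := h1 ι₀ τ hτ hτρ
    have h3 : (R τ).map (algebraMap A F) - 1 = 0 := by
      rw [hur ι₀ τ hτ, Matrix.map_one _ (map_zero _) (map_one _), sub_self]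
    rw [h3, Matrix.rank_zero] at h2
    exact h2
  · obtain ⟨i, hi⟩ := IsAlgClosed.exists_pow_nat_eq (-1 : QBar) (n := 2) two_pos
    have hΦi : ∃ i : QBar, i ^ 2 = -1 ∧ Φ i = -i := by
      obtain ⟨τ, hc, hF⟩ := hΦ
      exact ⟨i, hi, frob_i h16 hc hF hi⟩
    have hΦD : Φ ∈ (Dec ι : Set (Gal s)) := by
      obtain ⟨τ, hc, -⟩ := hΦ
      exact ⟨τ, hc⟩
    have hb : SelmerDimLE F R ι₂ (frobRank R Φ) := by
      intro r z hr hz
      exact hdep (Pool.Agent.XE31.GL.bound_frob hs h16 hT hρ hA h2A h20 hrep hR.cont hθ5 hθs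
        (fun j => hsel _ (hz j)) hι hΦD hΦρ hΦi hr)
    refine ⟨hb, fun hc => hzero ?_⟩
    have h0 : frobRank R Φ = 0 := by
      choose e he hee using hc
      unfold frobRank
      have h2 : Submodule.span (ResidueField A)
          {v : Fin n → ResidueField A | ∃ x y : Fin n → A, (2 : A) • y = (R Φ - 1) *ᵥ x ∧
            v = fun i => residue A (y i)} = ⊥ := by
        rw [Submodule.span_eq_bot]
        rintro _ ⟨x, y, hxy, rfl⟩
        funext i
        show residue A (y i) = 0
        rw [residue_eq_zero_iff]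
        have h3 : (2 : A) * y i = 2 * ∑ j, e i j * x j := by
          have h4 := congrFun hxy i
          rw [Pi.smul_apply, smul_eq_mul] at h4
          rw [h4, Finset.mul_sum]
          show ∑ j, (R Φ - 1) i j * x j = _
          refine Finset.sum_congr rfl fun j _ => ?_
          rw [← mul_assoc, ← hee i j]
          rfl
        rw [mul_left_cancel₀ h20 h3]
        exact Ideal.sum_mem _ fun j _ => Ideal.mul_mem_right _ _ (he i j)
      rw [h2, finrank_bot]
    rwa [h0] at hb

end Pool.Agent.Results.MP_7c08ba_nt.RepresentationsOfAllDimensions
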