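import Mathlib
import Pool.Agent.XE31.BK.Fin

/-!
# Bloch–Kato Selmer groups of all conjugate self-dual `2`-adic characters of `ℚ(√-q)`

Let `q` be a prime number that is `7` modulo `16` and `K = ℚ(√-q)`. The prime `2` splits in `K`. Let
`D` be `1` or a squarefree product of prime numbers that are `1` modulo `4` and inert in `K`, with
`D = 1` modulo `8`. We consider ALL continuous characters `Ψ` of the absolute Galois group of `K` with
values in the ring of integers `A` of a finite extension `F` of `ℚ_2` that are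

* conjugate self-dual: `Ψ(σ) Ψ(c σ c) = χ(σ)`, `χ` the `2`-adic cyclotomic character and `c` a
  complex conjugation,
* residually trivial,
* on the inertia groups at the odd primes equal to the quadratic character of `K(√(√-q D)) / K` (for
  `D = 1` this holds, by local class field theory, for every conjugate self-dual residually trivial
  character that is unramified outside `2 q`).

So nothing is assumed at the places above `2`: the characters `Ψ` are the `2`-adic realizations of the
algebraic Hecke characters `π` of `K` with `π^∨ = π^c |·|⁻¹` of ALL infinity types, of all conductors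
`2^a √-q D` (they include all the twists by anticyclotomic characters of `2`-power order and
conductor), residually trivial, and also all characters that are not algebraic.

Let `v̄` be the place of `K` above `2` at which `√-q` is `1` modulo `4` (replace `√-q` by `-√-q` for the
other place), and let `H` be the group of the classes of `H¹(K, F(Ψ))` that are trivial at `v̄`,
unramified at the primes outside `2` (trivial on the inertia groups), without condition at the other
place `v` above `2`. If `Ψ` is the realization of `π` and its Hodge–Tate weight at `v` is positive, so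
that it is not positive at `v̄`, then `H = H¹_f(K, F(Ψ))`.

Theorem: there is a sign `ε = ±1` such that `Ψ(Φ) = ε √-q` (the image of `√-q` at `v̄`) for all the
Frobenius elements `Φ` at the prime above `q` that fix `√(√-q D)`; and

* if `ε = 1` then `H = 0`;
* in all cases the dimension of `H` is at most one.

If `Ψ` is the realization of `π` then `ε` is the root number of `π` (the product formula for the
value of `π` at `√-q`; for example the `2`-adic realization of `ψ^k ψ̄^(1-k)`, `ψ` the character of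
the Tate module of the elliptic curve `X_0(49)` over `ℚ(√-7)`, has `ε = (-1)^(k-1)`). So
`dim H¹_f(K, π) ≤ (1 - ε) / 2`: it is at most the order of vanishing at `s = 0` that is forced by the
functional equation. For `ε = 1` the equality in the conjecture of Bloch and Kato holds if and
only if `L(0, π) ≠ 0`, and for `ε = -1` the inequality `dim H¹_f ≤ ord L` holds.

## The proof

A cocycle `z ≠ 0` that vanishes on the decomposition group of `v̄` is scaled to a primitive cocycle
and reduced to a quadratic character `h` of `K`. The kernel of `h` is the group of a field `K(√t)`,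
where `t ∈ K` is a square at `v̄`, a unit outside `2 q D` up to squares. At the primes that divide
`q D` the inertia group contains elements with `Ψ = -1`, so `z` is a coboundary on the whole
decomposition group, which gives the value of `h` at the Frobenius elements; the conjugate self-duality
determines `Ψ(Φ)` up to the sign, modulo `4` at the primes that divide `D`. The arithmetic of the
quadratic form `x² + q y²` (`-q` is `9` modulo `16`, `2` is not a norm times a square etc.) shows
that there is at most one such field, and none if `Ψ(Φ)` is `5` modulo `8`. The formal proof does not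
use class field theory; the Frobenius elements are constructed with the profinite version of the
theorem on the residue fields of Galois extensions.
-/

set_option autoImplicit false

namespace Pool.Agent.Results.MP_7c08ba_nt.SelfDualCharactersTwoAdic

open IsLocalRing

/-- An algebraic closure of `ℚ`. -/
abbrev QBar : Type := AlgebraicClosure ℚ

/-- The field `ℚ(s)`. It is `ℚ(√-q)` if `s² = -q`. -/
noncomputable abbrev K (s : QBar) : IntermediateField ℚ QBar := IntermediateField.adjoin ℚ {s}

/-- The absolute Galois group of `ℚ(s)` (with its Krull topology). -/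
abbrev Gal (s : QBar) : Type := QBar ≃ₐ[K s] QBar

/-- Embeddings of `ℚ̄` into the algebraic closure of `ℚ_p`. Each of them gives a place above `p` of
all subfields of `ℚ̄`. -/
abbrev Emb (p : ℕ) [Fact p.Prime] : Type := QBar →ₐ[ℚ] PadicAlgCl p

/-- The automorphism `τ` of the algebraic closure of `ℚ_p` extends `σ`. -/
def Extends {s : QBar} {p : ℕ} [Fact p.Prime] (ι : Emb p)
    (τ : PadicAlgCl p ≃ₐ[ℚ_[p]] PadicAlgCl p) (σ : Gal s) : Prop := ∀ x : QBar, τ (ι x) = ι (σ x)

/-- The decomposition group of the place given by the embedding `ι` of `ℚ̄`. -/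
def Dec {s : QBar} {p : ℕ} [Fact p.Prime] (ι : Emb p) : Set (Gal s) :=
  {σ | ∃ τ : PadicAlgCl p ≃ₐ[ℚ_[p]] PadicAlgCl p, Extends ι τ σ}

/-- Its inertia group: the automorphisms which are trivial on the residue field. -/
def Inr {s : QBar} {p : ℕ} [Fact p.Prime] (ι : Emb p) : Set (Gal s) :=
  {σ | ∃ τ : PadicAlgCl p ≃ₐ[ℚ_[p]] PadicAlgCl p, Extends ι τ σ ∧
    ∀ z : PadicAlgCl p, ‖z‖ ≤ 1 → ‖τ z - z‖ < 1}

/-- Its Frobenius elements: the automorphisms which are `z ↦ z ^ p` on the residue field. -/
def Frobenius {s : QBar} {p : ℕ} [Fact p.Prime] (ι : Emb p) : Set (Gal s) :=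
  {σ | ∃ τ : PadicAlgCl p ≃ₐ[ℚ_[p]] PadicAlgCl p, Extends ι τ σ ∧
    ∀ z : PadicAlgCl p, ‖z‖ ≤ 1 → ‖τ z - z ^ p‖ < 1}

/-- `c` is the complex conjugation of an embedding of `ℚ̄` into `ℂ`. -/
def IsConjugation (c : QBar ≃ₐ[ℚ] QBar) : Prop :=
  ∃ j : QBar →+* ℂ, ∀ x, j (c x) = (starRingEnd ℂ) (j x)

/-- The `2`-adic cyclotomic character. -/
noncomputable def cyc {s : QBar} (σ : Gal s) : ℤ_[2] :=
  (cyclotomicCharacter QBar 2 σ.toRingEquiv : ℤ_[2]ˣ)

/-- The class of the numbers `D`: `D` is squarefree, `1` modulo `8`, and its prime factors are `1`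
modulo `4` and inert in `ℚ(√-q)`. -/
structure Twisting (q D : ℕ) : Prop where
  squarefree : Squarefree D
  mod_eight : D % 8 = 1
  mod_four : ∀ l : ℕ, l.Prime → l ∣ D → l % 4 = 1
  inert : ∀ l : ℕ, l.Prime → l ∣ D → ∀ x : ℤ, ¬ (l : ℤ) ∣ x ^ 2 + q

section characters

variable {s : QBar} {A : Type} [CommRing A] [IsDomain A] [IsLocalRing A] [TopologicalSpace A]
  [Algebra ℤ_[2] A]

/-- The character `Ψ` is continuous, residually trivial, conjugate self-dual, and equal to the
quadratic character of `K(ρ) / K` on the inertia groups at the odd primes. -/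
structure SelfDual (c : QBar ≃ₐ[ℚ] QBar) (ρ : QBar) (Ψ : Gal s →* A) : Prop where
  cont : Continuous Ψ
  residual : ∀ σ, Ψ σ - 1 ∈ maximalIdeal A
  dual : ∀ σ σ' : Gal s, (∀ x, σ' x = c (σ (c x))) → Ψ σ * Ψ σ' = algebraMap ℤ_[2] A (cyc σ)
  inertia : ∀ (p : ℕ) [Fact p.Prime] (ι : Emb p), p ≠ 2 → ∀ σ ∈ (Inr ι : Set (Gal s)),
    (σ ρ = ρ → Ψ σ = 1) ∧ (σ ρ = -ρ → Ψ σ = -1)

variable {F : Type} [Field F] [Algebra A F]

/-- `z` is a continuous cocycle with values in `F(Ψ)` (a nonzero multiple of it is continuous with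
values in `A`). -/
structure Cocycle (Ψ : Gal s →* A) (z : Gal s → F) : Prop where
  mul : ∀ σ τ, z (σ * τ) = z σ + algebraMap A F (Ψ σ) * z τ
  cont : ∃ (a : A) (b : Gal s → A), a ≠ 0 ∧ Continuous b ∧
    ∀ σ, algebraMap A F a * z σ = algebraMap A F (b σ)

/-- `z` is a coboundary on the set `S`. -/
def Trivial (Ψ : Gal s →* A) (S : Set (Gal s)) (z : Gal s → F) : Prop :=
  ∃ y : F, ∀ σ ∈ S, z σ = (algebraMap A F (Ψ σ) - 1) * y

/-- **The Selmer group.** The class of `z` is trivial at the place above `2` given by `ι₂`, and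
unramified (trivial on the inertia groups) at the odd primes. -/
structure InSelmer (Ψ : Gal s →* A) (ι₂ : Emb 2) (z : Gal s → F) : Prop where
  cocycle : Cocycle Ψ z
  odd : ∀ (p : ℕ) [Fact p.Prime] (ι : Emb p), p ≠ 2 → Trivial Ψ (Inr ι) z
  two : Trivial Ψ (Dec ι₂) z

end characters

/-! ### The proof -/

section proof

open Pool.Agent.XE31.BK

lemma cyc_isCyc {s : QBar} : IsCyc (s := s) (fun σ => cyc (s := s) σ) := by
  intro σ m ζ hζ
  exact cyclotomicCharacter.spec 2 (n := m) σ.toRingEquiv ζ hζ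

/-- The conjugation on the Galois group exists. -/
lemma exists_conjBy {s : QBar} {d : ℕ} (hs : s ^ 2 = -(d : QBar)) {c : QBar ≃ₐ[ℚ] QBar}
    (hc : IsConjugation c) : ∃ cj : Gal s → Gal s, ∀ σ x, cj σ x = c (σ (c x)) := by
  have hinv : ∀ x, c (c x) = x := fun x => IsConj.invol hc x
  have hcs : c s ∈ K s := by
    have h1 : (c s - s) * (c s + s) = 0 := by
      have h2 : (c s) ^ 2 = -(d : QBar) := by rw [← map_pow, hs, map_neg, map_natCast]
      linear_combination h2 - hs
    have hsK : s ∈ K s := IntermediateField.mem_adjoin_simple_self ℚ s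
    rcases mul_eq_zero.1 h1 with h | h
    · rw [sub_eq_zero.1 h]
      exact hsK
    · rw [eq_neg_of_add_eq_zero_left h]
      exact neg_mem hsK
  have hK : ∀ x ∈ K s, c x ∈ K s := by
    have h1 : K s ≤ (K s).comap (c : QBar →ₐ[ℚ] QBar) := by
      rw [IntermediateField.adjoin_le_iff, Set.singleton_subset_iff]
      exact hcs
    exact fun x hx => h1 hx
  refine ⟨fun σ => AlgEquiv.ofRingEquiv (f := (c.toRingEquiv.trans
      σ.toRingEquiv).trans c.toRingEquiv) fun r => ?_, fun σ x => rfl⟩
  have h1 : σ (c (r : QBar)) = c (r : QBar) := σ.commutes ⟨c (r : QBar), hK _ r.2⟩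
  show c (σ (c (r : QBar))) = (r : QBar)
  rw [h1, hinv]

lemma two_mem {A : Type} [CommRing A] [IsLocalRing A] [Algebra ℤ_[2] A] [Module.Free ℤ_[2] A] :
    (2 : A) ∈ maximalIdeal A ∧ (2 : A) ≠ 0 := by
  let b := Module.Free.chooseBasis ℤ_[2] A
  obtain ⟨e⟩ : Nonempty _ := b.index_nonempty
  have key : ∀ x : A, b.repr ((2 : A) * x) e = 2 * b.repr x e := by
    intro x
    have h : (2 : A) * x = (2 : ℤ_[2]) • x := by rw [Algebra.smul_def, map_ofNat]
    rw [h, map_smul, Finsupp.smul_apply, smul_eq_mul]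
  constructor
  · rw [mem_maximalIdeal, mem_nonunits_iff]
    intro hu
    obtain ⟨x, hx⟩ := hu.dvd (a := b e)
    have h1 := key x
    rw [← hx, b.repr_self, Finsupp.single_eq_same] at h1
    have h2 : IsUnit ((2 : ℕ) : ℤ_[2]) := by
      push_cast
      exact IsUnit.of_mul_eq_one _ h1.symm
    exact PadicInt.prime_p.not_unit h2
  · intro h0
    have h1 := key (b e)
    rw [h0, zero_mul, map_zero, b.repr_self, Finsupp.single_eq_same, mul_one] at h1
    exact two_ne_zero h1.symm

lemma tw_of {q D : ℕ} (h : Twisting q D) : Tw q D where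
  sqf := h.squarefree
  mod := h.mod_eight
  one := h.mod_four
  inert := by
    intro l hl hlD
    rw [legendreSym.eq_neg_one_iff]
    rintro ⟨b, hb⟩
    obtain ⟨a, rfl⟩ := ZMod.intCast_surjective b
    apply h.inert l hl.out hlD a
    rw [← ZMod.intCast_zmod_eq_zero_iff_dvd]
    push_cast at hb ⊢
    linear_combination -hb

end proof

/-- **Selmer groups of conjugate self-dual characters.** Let `q = 7` modulo `16` be a prime number,
`K = ℚ(√-q)`, `s = √-q`, `D` a number of the class, `ρ = √(s D)`, `ι₂` an embedding of `ℚ̄` into the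
algebraic closure of `ℚ_2` that maps `s` to `θ ∈ ℤ_2`, `θ = 1` modulo `4`; let `A` be the ring of
integers of a finite extension `F` of `ℚ_2` and `Ψ : G_K → A^×` a continuous residually trivial
conjugate self-dual character that is the character of `K(ρ) / K` on the inertia groups at the odd
primes. Then there is a sign `ε` with `Ψ(Φ) = ε θ` for all the Frobenius elements `Φ` at `√-q` that
fix `ρ` (and there are such `Φ`); if `ε = 1` then every class of the Selmer group of `Ψ` is trivial;
and any two classes of the Selmer group are linearly dependent. -/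
theorem result : ∀ (q : ℕ) [Fact q.Prime], q % 16 = 7 → ∀ D : ℕ, Twisting q D →
    ∀ s ρ : QBar, s ^ 2 = -(q : QBar) → ρ ^ 2 = s * D →
    ∀ (ι₂ : Emb 2) (θ : ℤ_[2]), ι₂ s = algebraMap ℚ_[2] (PadicAlgCl 2) θ →
      (∃ k : ℤ_[2], θ = 1 + 4 * k) →
    ∀ c : QBar ≃ₐ[ℚ] QBar, IsConjugation c →
    ∀ (A : Type) [CommRing A] [IsDomain A] [IsDiscreteValuationRing A] [TopologicalSpace A]
      [IsTopologicalRing A] [Algebra ℤ_[2] A] [Module.Finite ℤ_[2] A] [Module.Free ℤ_[2] A],
      IsAdic (maximalIdeal A) →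
    ∀ (F : Type) [Field F] [Algebra A F] [IsFractionRing A F] (Ψ : Gal s →* A), SelfDual c ρ Ψ →
    ∃ ε : ℤ, (ε = 1 ∨ ε = -1) ∧
      (∀ ι : Emb q, ∃ Φ ∈ (Frobenius ι : Set (Gal s)), Φ ρ = ρ) ∧
      (∀ (ι : Emb q), ∀ Φ ∈ (Frobenius ι : Set (Gal s)), Φ ρ = ρ →
        Ψ Φ = ε * algebraMap ℤ_[2] A θ) ∧
      (ε = 1 → ∀ z : Gal s → F, InSelmer Ψ ι₂ z → Trivial Ψ Set.univ z) ∧
      (∀ z z' : Gal s → F, InSelmer Ψ ι₂ z → InSelmer Ψ ι₂ z' → ∃ a a' : F, (a ≠ 0 ∨ a' ≠ 0) ∧
        Trivial Ψ Set.univ (fun σ => a * z σ + a' * z' σ)) := by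
  intro q _ h16 D hD s ρ hs hρ ι₂ θ hθs hk c hc A _ _ _ _ _ _ _ _ hA F _ _ _ Ψ hΨ
  obtain ⟨k, hk⟩ := hk
  obtain ⟨cj, hcj⟩ := exists_conjBy hs hc
  obtain ⟨h2A, h20⟩ := two_mem (A := A)
  have hsel : ∀ z : Gal s → F, InSelmer Ψ ι₂ z → Pool.Agent.XE31.BK.Sel ι₂ Ψ z := fun z hz =>
    ⟨⟨hz.cocycle.mul, hz.cocycle.cont, hz.odd⟩, hz.two⟩
  obtain ⟨w, hw, hex, hval, hvan, hdim⟩ := Pool.Agent.XE31.BK.main (F := F) hs h16 (tw_of hD) hρ
    cyc_isCyc hc hcj hA h2A h20 hΨ.cont hΨ.residual hΨ.inertia
    (fun σ => hΨ.dual σ (cj σ) (hcj σ)) hk hθs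
  have hdim' : ∀ z z' : Gal s → F, InSelmer Ψ ι₂ z → InSelmer Ψ ι₂ z' →
      ∃ a a' : F, (a ≠ 0 ∨ a' ≠ 0) ∧
        Trivial Ψ Set.univ (fun σ => a * z σ + a' * z' σ) := by
    intro z z' hz hz'
    obtain ⟨a, a', y, h1, h2⟩ := hdim z z' (hsel z hz) (hsel z' hz')
    exact ⟨a, a', h1, y, fun σ _ => h2 σ⟩
  have hex' : ∀ ι : Emb q, ∃ Φ ∈ (Frobenius ι : Set (Gal s)), Φ ρ = ρ := by
    intro ι
    obtain ⟨τ, Φ, h1, h2, h3⟩ := hex ι
    exact ⟨Φ, ⟨τ, h1, h2⟩, h3⟩
  rcases hw with rfl | rfl
  · refine ⟨1, Or.inl rfl, hex', ?_, fun _ z hz => ?_, hdim'⟩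
    · rintro ι Φ ⟨τ, h1, h2⟩ h3
      rw [hval ι τ Φ h1 h2 h3, Int.cast_one, one_mul]
    · obtain ⟨y, hy⟩ := hvan rfl z (hsel z hz)
      exact ⟨y, fun σ _ => hy σ⟩
  · refine ⟨-1, Or.inr rfl, hex', ?_, fun h => ?_, hdim'⟩
    · rintro ι Φ ⟨τ, h1, h2⟩ h3
      rw [hval ι τ Φ h1 h2 h3, map_neg, Int.cast_neg, Int.cast_one, neg_one_mul]
    · norm_num at h

end Pool.Agent.Results.MP_7c08ba_nt.SelfDualCharactersTwoAdic
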