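import Pool.Agent.H67BB.Fin

/-!
# A bound for the Bloch-Kato Selmer groups of the twists of an elliptic curve by all the characters
# which belong to Galois 2-extensions of `ℚ`

Let `F` be an imaginary quadratic field, `E` an elliptic curve over `ℚ` and `χ` an anticyclotomic
character of finite order of the absolute Galois group `G_F` (`χ(c σ c⁻¹) = χ(σ)⁻¹`, `c` complex
conjugation). The twist `π` by `χ` of the base change to `F` of the newform of `E` satisfies
`π^∨ = π^c |.|⁻¹`, its Galois representation is `V_p E ⊗ χ`, and `L(s, π) = L(E/F, χ, s + 1)`.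

The theorem is about `p = 2` and characters `χ` of 2-power order; `F` is any number field in `ℚ̄`.
The pair `(F, χ)` belongs to the field `K` in `ℚ̄` if `F ⊆ K` and `χ` is trivial on `G_K`.

For `E : y² = x³ + A x + B` and a Galois extension `K / ℚ` put `N(K) = ε + ∑ r_p + s`. Here `ε = 1` if
`2` is ramified in `K`, `ε = 0` if not; the sum is over the odd primes `p` which are ramified in `K`,
and `r_p` is the integral part of `log₂ (1 + z_p)`, `z_p` the number of the zeros of `x³ + A x + B`
modulo `p` (this is the dimension of `E(𝔽_p)[2]` if `p` is good; it is at most two);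
`s` is the number of the primes which divide `A` and `B`, and are unramified in `K` and do not split
completely in `K`.

Theorem: for a positive proportion of all `E / ℚ`, ordered by height, one has, for ALL Galois
extensions `K / ℚ` of 2-power degree and ALL pairs `(F, χ)` which belong to `K`,

  `dim H ^ 1_f (F, V_2 E ⊗ χ) ≤ [F : ℚ] N(K)`;

the number of the primes which divide `A` and `B` is at most a constant `C`; and any given Galois
extension `K₀ / ℚ` of 2-power degree may be prescribed to have `N(K₀) = 0` if `2` is unramified in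
`K₀` (so `H ^ 1_f (F, V_2 E ⊗ χ) = 0` for all pairs which belong to `K₀`) and `N(K₀) = 1` if `2` is
ramified in `K₀` (so the dimension is at most `[F : ℚ]` for all pairs which belong to `K₀`).

In particular the dimension is bounded by `[F : ℚ] (1 + 2 t + C)` for all the characters `χ` of 2-power
order of all the `G_F` such that `χ` and `F` belong to a Galois 2-extension of `ℚ` in which at most `t`
odd primes are ramified: for instance for all anticyclotomic characters `χ` of 2-power order and 2-power
conductor of all imaginary quadratic fields `F` with at most `t` odd ramified primes, `2 (1 + 2 t + C)`.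

The proof: the curves are those of the projects PQ, PV of the library. Let `K` be given. The relaxed
2-Selmer group over `ℚ`, with no condition at the primes ramified in `K` and at those counted by `s`, has
dimension at most `N(K)` (`H67R`). So the group `A` of the square classes of `Ω = K(θ)`, `θ` a zero of
the cubic, which satisfy the local conditions of the 2-Selmer group over `K` outside these primes,
has at most `2 ^ N(K)` invariants under `Gal(Ω / ℚ(θ))`, a 2-group, and at most `2 ^ (N(K) [F : ℚ])`
invariants under the subgroup of index `[F : ℚ]` which belongs to `F` (GRP). It follows that at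
most `2 ^ (N(K) [F : ℚ])` classes in `H ^ 1 (F, E[2])` are locally trivial in `E` over `K`. Finally the
lattice of the Selmer classes with values in `T_2 E ⊗ χ` modulo `1 - ζ` embeds in the group of these
classes (LAT), and Nakayama's lemma (NAK).
-/

set_option autoImplicit false
set_option linter.all false

open Filter NumberField
open Pool.Agent.H30EV (Curves Ramified SplitsCompletely)
open scoped Classical

namespace Pool.Agent.Results.MP_7c08ba_nt.TwoExtensionsSelmerBound

open Pool.Agent.H67BK (QBar Gal aut IsCharacter)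
open Pool.Agent.H67BB (SelmerDimLE)

/-- The integral part of `log₂ (1 + z)`, `z` the number of the zeros of `x ^ 3 + A x + B` modulo `p`.
For a prime `p ≠ 2` of good reduction this is the dimension of `E(𝔽_p)[2]`, a group with `1 + z`
elements. -/
noncomputable def twoRank (q : ℤ × ℤ) (p : ℕ) : ℕ :=
  Nat.log 2 (1 + Nat.card {x : ZMod p // x ^ 3 + (q.1 : ZMod p) * x + (q.2 : ZMod p) = 0})

/-- The odd primes which are ramified in `K`. -/
def oddRam (K : Type) [Field K] [NumberField K] : Set ℕ := {p | p.Prime ∧ p ≠ 2 ∧ Ramified K p}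

/-- The primes which divide `A` and `B`. -/
def common (q : ℤ × ℤ) : Set ℕ := {p | p.Prime ∧ (p : ℤ) ∣ q.1 ∧ (p : ℤ) ∣ q.2}

/-- The primes which divide `A` and `B`, are unramified in `K` and do not split completely in `K`. -/
def inert (K : Type) [Field K] [NumberField K] (q : ℤ × ℤ) : Set ℕ :=
  {p ∈ common q | ¬ Ramified K p ∧ ¬ SplitsCompletely K p}

/-- The number `N(K) = ε + ∑ r_p + s`, the sum over the odd primes which are ramified in `K`;
`ε = 1` if `2` is ramified in `K`, and `ε = 0` if not. -/
noncomputable def nRam (K : Type) [Field K] [NumberField K] (q : ℤ × ℤ) : ℕ :=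
  (if Ramified K 2 then 1 else 0) + (∑ᶠ p ∈ oddRam K, twoRank q p + (inert K q).ncard)

/-- The pair `(F, χ)`, `χ = ζ ^ a`, belongs to `K`: `F` is contained in `K` and `χ` is trivial on the
absolute Galois group of `K`. -/
def BelongsTo (K F : IntermediateField ℚ QBar) {m : ℕ} (a : Gal F → ZMod (2 ^ (m + 1))) : Prop :=
  F ≤ K ∧ ∀ σ : Gal F, (∀ x ∈ K, aut σ x = x) → a σ = 0

/-- The number of the ramified odd primes is finite. -/
theorem oddRam_finite (K : Type) [Field K] [NumberField K] [IsGalois ℚ K] : (oddRam K).Finite :=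
  (Pool.Agent.H30GR.ram_fin K).subset fun _ hp => ⟨hp.1, hp.2.2⟩

open Pool.Agent.H67R Pool.Agent.H30GR Pool.Agent.N922.PQ Pool.Agent.H30EV in
theorem nRam_eq {F : Type} [Field F] [NumberField F] [IsGalois ℚ F] {A B : ℤ} (hB : B % 2 = 1)
    (hA : A % 2 = 1) : nRam F (A, B) =
      (if Unr F 2 then 0 else 1) + (dm A B (ram_fin F).toFinset + (inert F (A, B)).ncard) := by
  have h1 : (if Ramified F 2 then 1 else 0) = (if Unr F 2 then 0 else 1) := by
    have := Pool.Agent.H30EV.unr_iff (K := F) Nat.prime_two
    by_cases h : Ramified F 2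
    · rw [if_pos h, if_neg]
      intro h2
      exact (this.1 h2) h
    · rw [if_neg h, if_pos (show Unr F 2 from this.2 h)]
  have h2 : ∑ᶠ p ∈ oddRam F, twoRank (A, B) p = dm A B (ram_fin F).toFinset := by
    rw [finsum_mem_eq_finite_toFinset_sum _ (oddRam_finite F)]
    unfold dm
    have hsub : (oddRam_finite F).toFinset ⊆ (ram_fin F).toFinset := by
      intro p hp
      rw [Set.Finite.mem_toFinset] at hp ⊢
      exact ⟨hp.1, hp.2.2⟩
    refine Finset.sum_subset hsub fun p hp hp' => ?_
    rw [Set.Finite.mem_toFinset] at hp hp'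
    have hp2 : p = 2 := by
      by_contra h
      exact hp' ⟨hp.1, h, hp.2⟩
    subst hp2
    have hz : nz A B 2 = 0 := by
      apply nz_irr
      refine ⟨Pool.Agent.H30EV.isPr_nat Nat.prime_two, fun z hz => ?_⟩
      have hz' : (2 : ℤ) ∣ z ^ 3 + A * z + B := hz
      rw [Int.dvd_iff_emod_eq_zero, Int.add_emod, Int.add_emod (z ^ 3), Int.mul_emod, hA, hB,
        pow_three, Int.mul_emod z, Int.mul_emod z z] at hz'
      rcases Int.emod_two_eq_zero_or_one z with h0 | h0 <;> rw [h0] at hz' <;> norm_num at hz'
    show Nat.log 2 (1 + nz A B 2) = 0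
    rw [hz]
    simp
  unfold nRam
  rw [h1, h2]

/-- **The theorem.** Let `K₀` be a Galois extension of `ℚ` in `ℚ̄` of degree `2 ^ n`. There are `C`
and `c > 0` such that for all large `X` at least `c` times the number of all elliptic curves over `ℚ` of
height at most `X` have the following properties: at most `C` primes divide `A` and `B`; `N(K₀) = 1`
if `2` is ramified in `K₀`, and `N(K₀) = 0` if `2` is unramified in `K₀`; and for ALL Galois
extensions `K` of `ℚ` of 2-power degree and ALL pairs `(F, χ)` which belong to `K` one has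
`dim H ^ 1_f (F, V_2 E ⊗ χ) ≤ N(K) [F : ℚ]`. -/
theorem result (K₀ : IntermediateField ℚ QBar) [NumberField K₀] [IsGalois ℚ K₀] (n : ℕ)
    (hn : Module.finrank ℚ K₀ = 2 ^ n) :
    (∀ X : ℕ, (Curves X).Finite) ∧
    ∃ (C : ℕ) (c : ℝ), 0 < c ∧ ∀ᶠ X : ℕ in atTop, 0 < (Curves X).ncard ∧
      c * ((Curves X).ncard : ℝ) ≤ ({q ∈ Curves X |
        ((common q).Finite ∧ (common q).ncard ≤ C) ∧
        nRam K₀ q = (if Ramified K₀ 2 then 1 else 0) ∧
        ∀ (K : IntermediateField ℚ QBar) [NumberField K] [IsGalois ℚ K],
          (∃ k : ℕ, Module.finrank ℚ K = 2 ^ k) →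
          ∀ (F : IntermediateField ℚ QBar) (m : ℕ) (a : Gal F → ZMod (2 ^ (m + 1))),
            IsCharacter F m a → BelongsTo K F a →
            SelmerDimLE q F m a (nRam K q * Module.finrank ℚ F)}.ncard : ℝ) := by
  refine ⟨Pool.Agent.H30EV.curves_fin, ?_⟩
  obtain ⟨C, c, hc, H₀, h⟩ := Pool.Agent.H67BB.propS K₀ {3} (by
    intro P hP
    rw [Finset.mem_singleton] at hP
    rw [hP]
    exact Pool.Agent.H30EV.isPr_nat Nat.prime_three)
  refine ⟨C, c, hc, ?_⟩
  filter_upwards [eventually_ge_atTop H₀, eventually_ge_atTop 27] with X hX hX'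
  refine ⟨Pool.Agent.H30EV.curves_pos hX', ?_⟩
  obtain ⟨-, h3⟩ := h X hX
  rw [← Pool.Agent.H30EV.curves_eq] at h3
  refine h3.trans ?_
  have hsub : {p : ℤ × ℤ | Pool.Agent.N922.PQ.Crv X p.1 p.2 ∧
      Pool.Agent.H67BB.GoodS' K₀ {3} C p} ⊆
      {q ∈ Curves X | ((common q).Finite ∧ (common q).ncard ≤ C) ∧
        nRam K₀ q = (if Ramified K₀ 2 then 1 else 0) ∧
        ∀ (K : IntermediateField ℚ QBar) [NumberField K] [IsGalois ℚ K],
          (∃ k : ℕ, Module.finrank ℚ K = 2 ^ k) →
          ∀ (F : IntermediateField ℚ QBar) (m : ℕ) (a : Gal F → ZMod (2 ^ (m + 1))),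
            IsCharacter F m a → BelongsTo K F a →
            SelmerDimLE q F m a (nRam K q * Module.finrank ℚ F)} := by
    rintro ⟨A, B⟩ ⟨hq, hg⟩
    have ha : A % 4 = 3 := hg.sel.a4
    have hb : B % 4 = 3 := hg.sel.b4
    have hA : Odd A := by
      rw [Int.odd_iff]
      omega
    have hB : Odd B := by
      rw [Int.odd_iff]
      omega
    have hpos : 0 < A := hg.sel.pos
    have hd : 0 < 4 * A ^ 3 + 27 * B ^ 2 := by positivity
    have hirr : ∀ p : ℕ, p.Prime → Ramified K₀ p → (p : ℤ) ∈ Pool.Agent.H30EV.irr A B := by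
      intro p hp hr
      by_contra hc'
      exact (Pool.Agent.H30EV.unr_iff hp).1
        (hg.adm.ur p (Pool.Agent.H30EV.isPr_nat hp) hc') hr
    -- the common prime divisors
    obtain ⟨E, hE, hEc⟩ := hg.cm
    have hcs : common (A, B) ⊆ ((E.image Int.natAbs : Finset ℕ) : Set ℕ) := by
      rintro p ⟨hp, h1, h2⟩
      refine Finset.mem_coe.2 (Finset.mem_image.2 ⟨(p : ℤ), ?_, Int.natAbs_natCast p⟩)
      exact hEc p (Pool.Agent.H30EV.isPr_nat hp) h1 h2
    have hcf : (common (A, B)).Finite := (Finset.finite_toSet _).subset hcs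
    have hcn : (common (A, B)).ncard ≤ C := by
      refine (Set.ncard_le_ncard hcs (Finset.finite_toSet _)).trans ?_
      rw [Set.ncard_coe_finset]
      exact Finset.card_image_le.trans hE
    refine ⟨(Pool.Agent.H30EV.crv_iff X _).1 hq, ⟨hcf, hcn⟩, ?_, ?_⟩
    · have h0 : ∑ᶠ p ∈ oddRam K₀, twoRank (A, B) p = 0 := by
        apply finsum_mem_eq_zero_of_forall_eq_zero
        rintro p ⟨hp, -, hr⟩
        have hz := Pool.Agent.H30GR.nz_irr (hirr p hp hr)
        show Nat.log 2 (1 + Pool.Agent.H30GR.nz A B p) = 0
        rw [hz]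
        simp
      have h1 : inert K₀ (A, B) = ∅ := by
        rw [Set.eq_empty_iff_forall_notMem]
        rintro p ⟨⟨hp, hA', hB'⟩, hur, hns⟩
        exact hns (Pool.Agent.H30EV.splits_of hp ((Pool.Agent.H30EV.unr_iff hp).2 hur)
          (hg.adm.sp p (Pool.Agent.H30EV.isPr_nat hp) hA' hB'))
      unfold nRam
      rw [h0, h1, Set.ncard_empty, add_zero, add_zero]
    · intro K _ _ hdeg F m a hχ hbel
      obtain ⟨k, hk⟩ := hdeg
      have hif : (inert K (A, B)).Finite := hcf.subset fun p hp => hp.1
      have hinv := hg.sel.sel K k hk (Pool.Agent.H30GR.ram_fin K).toFinset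
        (hif.toFinset.image (fun p : ℕ => (p : ℤ))) (fun l => by
          rw [Set.Finite.mem_toFinset]
          constructor
          · rintro ⟨h1, h2⟩
            exact ⟨h1, fun h4 => (Pool.Agent.H30EV.unr_iff h1).1 h4 h2⟩
          · rintro ⟨h1, h2⟩
            exact ⟨h1, by rwa [Pool.Agent.H30EV.unr_iff h1, not_not] at h2⟩) (fun Q hQ h1 h2 h3 => by
          obtain ⟨p, hp, rfl⟩ := Pool.Agent.H30EV.nat_isPr hQ
          by_cases hr : Pool.Agent.H30EV.Res K (p : ℤ)
          · exact Or.inl hr
          · refine Or.inr (Finset.mem_image.2 ⟨p, ?_, rfl⟩)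
            rw [Set.Finite.mem_toFinset]
            exact ⟨⟨hp, h1, h2⟩, (Pool.Agent.H30EV.unr_iff hp).1 h3,
              fun hs => hr (Pool.Agent.H30EV.res_of_splits hs)⟩)
      have hN := nRam_eq (F := K) (A := A) (B := B) (by omega) (by omega)
      have hinv' : Pool.Agent.H67BB.SelFBd (A, B) K (nRam K (A, B)) := by
        rw [hN]
        refine hinv.mono (Nat.add_le_add_left (Nat.add_le_add_left ?_ _) _)
        rw [Set.ncard_eq_toFinset_card _ hif]
        exact Finset.card_image_le
      exact Pool.Agent.H67BB.selmer_dim (q := (A, B)) hd.ne' (Pool.Agent.H30GR.no_zero hk hA hB)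
        hinv' hbel.1 hχ hbel.2
  have h4 := Set.ncard_le_ncard hsub ((Pool.Agent.H30EV.curves_fin X).subset fun q hq => hq.1)
  exact_mod_cast h4

end Pool.Agent.Results.MP_7c08ba_nt.TwoExtensionsSelmerBound
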